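import Pool.Agent.V5helper67.KS.Main
import Pool.Agent.Y352.KSR.Final
import Pool.Agent.Results.MP_c890a7_co.LogRate

/-!
# The rate `log log w / log w` for the minimal balance constants of posets of width `w`
-/

set_option autoImplicit false

open Filter Topology

namespace Pool.Agent.V5helper67.KS

open Pool.Agent.H293R3.BC Pool.Agent.TH161.LW
open Pool.Agent.Y352.KSR (CC po eN_card eP_card eP_zero IsDelta delta_nonneg delta_le
  log_two_div_ge)

/-- the rate for relations on `Fin n` -/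
theorem big : ∃ B : ℝ, 1 ≤ B ∧ ∀ ε : ℝ, 0 < ε → ε < 1 / 2 → ∀ (n : ℕ)
    (r : Fin n → Fin n → Prop), IsPo r → (∃ s : Finset (Fin n),
      Real.exp (B * Real.log (2 / ε) / ε) ≤ s.card ∧
      ∀ a ∈ s, ∀ b ∈ s, a ≠ b → ¬ r a b) →
    ∃ x y : Fin n, ¬ r x y ∧ ¬ r y x ∧ 1 / 2 - ε ≤ min
      ((Nat.card {σ : Equiv.Perm (Fin n) //
          (∀ a b, r a b → σ a ≤ σ b) ∧ σ x < σ y} : ℝ) /
        (Nat.card {σ : Equiv.Perm (Fin n) // ∀ a b, r a b → σ a ≤ σ b} : ℝ))
      ((Nat.card {σ : Equiv.Perm (Fin n) //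
          (∀ a b, r a b → σ a ≤ σ b) ∧ σ y < σ x} : ℝ) /
        (Nat.card {σ : Equiv.Perm (Fin n) // ∀ a b, r a b → σ a ≤ σ b} : ℝ)) := by
  obtain ⟨B, hB, hW⟩ := kahn_saks_rate
  refine ⟨B, hB, fun ε hε hε2 n r hr ⟨s, hsW, hs⟩ => ?_⟩
  let _ : PartialOrder (CC n) := po r hr
  have hcard : Fintype.card (CC n) = n := Fintype.card_fin n
  obtain ⟨x, y, -, h1, h2⟩ := hW ε hε hε2.le (CC n) (s : Finset (CC n))
    (fun a ha b hb hab => hs a ha b hb hab) hsW
  have he : (0 : ℝ) < eN (CC n) := by exact_mod_cast Pool.Agent.TH161.KS.eN_pos (CC n)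
  have hpos : (0 : ℝ) < (1 / 2 - ε) * eN (CC n) := mul_pos (by linarith) he
  refine ⟨x, y, ?_, ?_, ?_⟩
  · intro h
    have h3 : eP (CC n) y x = 0 := eP_zero (x := x) (y := y) h
    rw [h3, Nat.cast_zero] at h2
    linarith
  · intro h
    have h3 : eP (CC n) x y = 0 := eP_zero (x := y) (y := x) h
    rw [h3, Nat.cast_zero] at h1
    linarith
  · have e1 := eN_card hcard
    have e2 := eP_card hcard x y
    have e3 := eP_card hcard y x
    have e1' : eN (CC n) = Nat.card {σ : Equiv.Perm (Fin n) // ∀ a b, r a b → σ a ≤ σ b} := e1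
    have e2' : eP (CC n) x y = Nat.card {σ : Equiv.Perm (Fin n) //
      (∀ a b, r a b → σ a ≤ σ b) ∧ σ x < σ y} := e2
    have e3' : eP (CC n) y x = Nat.card {σ : Equiv.Perm (Fin n) //
      (∀ a b, r a b → σ a ≤ σ b) ∧ σ y < σ x} := e3
    rw [← e1', ← e2', ← e3']
    refine le_min ?_ ?_
    · rw [le_div_iff₀ he]; exact h1
    · rw [le_div_iff₀ he]; exact h2

/-- the rate -/
theorem rate : ∃ B : ℝ, 1 ≤ B ∧ ∀ δ : ℕ → ℝ, IsDelta δ → ∀ (ε : ℝ) (w : ℕ), 0 < ε → ε ≤ 1 / 2 →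
    Real.exp (B * Real.log (2 / ε) / ε) ≤ w → 1 / 2 - ε ≤ δ w := by
  obtain ⟨B, hB, hW⟩ := big
  refine ⟨B, hB, fun δ hδ ε w hε hε2 hw => ?_⟩
  rcases hε2.lt_or_eq with hε3 | rfl
  · have hw1 : 1 ≤ w := by
      have h1 : (0 : ℝ) < w := lt_of_lt_of_le (Real.exp_pos _) hw
      exact_mod_cast h1
    obtain ⟨n₀, r₀, -, -, h₀⟩ := exists_poset w hw1
    rw [hδ w]
    refine le_csInf ⟨_, n₀, r₀, h₀.po.1, h₀.po.2.1, h₀.po.2.2, h₀.wid, h₀.wid_le, rfl⟩ ?_
    rintro d ⟨n, r, h1, h2, h3, ⟨s, hs1, hs2⟩, -, rfl⟩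
    obtain ⟨x, y, hx, hy, hxy⟩ := hW ε hε hε3 n r ⟨h1, h2, h3⟩ ⟨s, by rw [hs1]; exact hw, hs2⟩
    refine hxy.trans (le_csSup ?_ ⟨x, y, hx, hy, rfl⟩)
    refine ⟨1, ?_⟩
    rintro t ⟨u, v, -, -, rfl⟩
    refine (min_le_left _ _).trans (div_le_one_of_le₀ ?_ (by positivity))
    have h5 : Nat.card {σ : Equiv.Perm (Fin n) // (∀ a b, r a b → σ a ≤ σ b) ∧ σ u < σ v} ≤
        Nat.card {σ : Equiv.Perm (Fin n) // ∀ a b, r a b → σ a ≤ σ b} :=
      Nat.card_le_card_of_injective (fun σ => ⟨σ.1, σ.2.1⟩) (fun a b h => by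
        rw [Subtype.mk.injEq] at h
        exact Subtype.ext h)
    exact_mod_cast h5
  · rw [sub_self]
    exact delta_nonneg hδ w

/-- the starting upper bound -/
lemma delta_log {δ : ℕ → ℝ} (hδ : IsDelta δ) (w : ℕ) (hw : 1 ≤ w) :
    δ w ≤ 1 / 2 - Real.log w / (20000 * (w : ℝ)) :=
  (Pool.Agent.Results.MP_c890a7_co.LogRate.result δ hδ).1 w hw

/-- strict growth on an exponential scale -/
lemma growth {B : ℝ} (hB : 1 ≤ B) {δ : ℕ → ℝ} (hδ : IsDelta δ)
    (hR : ∀ (ε : ℝ) (w : ℕ), 0 < ε → ε ≤ 1 / 2 →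
      Real.exp (B * Real.log (2 / ε) / ε) ≤ w → 1 / 2 - ε ≤ δ w) (w v : ℕ) (hw : 1 ≤ w)
    (hv : Real.exp (1000000 * B * w) ≤ v) : δ w < δ v := by
  rcases Nat.lt_or_ge 1 w with h | h
  · have hw2 : (2 : ℝ) ≤ w := by exact_mod_cast h
    have hw0 : (0 : ℝ) < w := by linarith
    have hl2 : Real.log 2 ≤ Real.log w := Real.log_le_log (by norm_num) hw2
    have hl3 := Real.log_two_gt_d9
    obtain ⟨ℓ, hℓ⟩ : ∃ ℓ : ℝ, ℓ = Real.log w := ⟨_, rfl⟩
    rw [← hℓ] at hl2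
    have hℓ1 : 0.69 ≤ ℓ := by linarith
    have hℓ0 : 0 < ℓ := by linarith
    have hℓw : ℓ ≤ w := by
      rw [hℓ]
      exact (Real.log_le_sub_one_of_pos hw0).trans (by linarith)
    have h1 := delta_log hδ w hw
    rw [← hℓ] at h1
    obtain ⟨ε, hε⟩ : ∃ ε : ℝ, ε = ℓ / (40000 * w) := ⟨_, rfl⟩
    have hε0 : 0 < ε := by rw [hε]; positivity
    have hε2 : ε ≤ 1 / 2 := by
      rw [hε, div_le_iff₀ (by positivity)]
      linarith
    have h2 : 1 / 2 - ε ≤ δ v := by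
      refine hR ε v hε0 hε2 ((Real.exp_le_exp.mpr ?_).trans hv)
      have h3 : Real.log (2 / ε) ≤ 20 * ℓ := by
        have h4 : 2 / ε ≤ Real.exp 12 * w := by
          rw [hε]
          have h5 : 2 / (ℓ / (40000 * (w : ℝ))) = 80000 / ℓ * w := by
            field_simp
            norm_num
          rw [h5]
          refine mul_le_mul_of_nonneg_right ?_ hw0.le
          rw [div_le_iff₀ hℓ0]
          have h6 : (2.7 : ℝ) ^ 12 ≤ Real.exp 12 := by
            have h7 : Real.exp 12 = Real.exp 1 ^ 12 := by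
              rw [← Real.exp_nat_mul]
              norm_num
            rw [h7]
            have := Real.exp_one_gt_d9
            exact pow_le_pow_left₀ (by norm_num) (by linarith) 12
          have h8 : (80000 : ℝ) ≤ 2.7 ^ 12 * 0.69 := by norm_num
          calc (80000 : ℝ) ≤ 2.7 ^ 12 * 0.69 := h8
            _ ≤ Real.exp 12 * ℓ := mul_le_mul h6 hℓ1 (by norm_num) (Real.exp_pos _).le
        calc Real.log (2 / ε) ≤ Real.log (Real.exp 12 * w) :=
              Real.log_le_log (by positivity) h4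
          _ = 12 + ℓ := by
              rw [Real.log_mul (Real.exp_pos _).ne' hw0.ne', Real.log_exp, ← hℓ]
          _ ≤ 20 * ℓ := by linarith
      calc B * Real.log (2 / ε) / ε ≤ B * (20 * ℓ) / ε := by gcongr
        _ = 800000 * B * w := by
            rw [hε]
            field_simp
            norm_num
        _ ≤ 1000000 * B * w := by
            have : 0 ≤ B * w := by positivity
            nlinarith
    have h3 : ℓ / (20000 * (w : ℝ)) = 2 * ε := by
      rw [hε]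
      field_simp
      norm_num
    linarith
  · have h1 : w = 1 := by omega
    subst h1
    have h1 := delta_le hδ 1 le_rfl
    have h2 : 1 / 2 - 1 / 8 ≤ δ v := by
      refine hR (1 / 8) v (by norm_num) (by norm_num) ((Real.exp_le_exp.mpr ?_).trans hv)
      have h3 : Real.log (2 / (1 / 8)) ≤ 3 := by
        have h4 : (2 : ℝ) / (1 / 8) = 2 ^ 4 := by norm_num
        rw [h4, Real.log_pow]
        have := Real.log_two_lt_d9
        push_cast
        linarith
      calc B * Real.log (2 / (1 / 8)) / (1 / 8) ≤ B * 3 / (1 / 8) := by gcongr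
        _ = 24 * B := by ring
        _ ≤ 1000000 * B * ((1 : ℕ) : ℝ) := by
            push_cast
            linarith
    norm_num at h1 h2
    linarith

/-- the theorem -/
theorem main : ∃ C : ℝ, 0 < C ∧ ∀ δ : ℕ → ℝ, IsDelta δ →
    (∀ (ε : ℝ) (w : ℕ), 0 < ε → ε ≤ 1 / 2 →
      Real.exp (C * Real.log (2 / ε) / ε) ≤ w → 1 / 2 - ε ≤ δ w) ∧
    (∀ w : ℕ, 16 ≤ w → 1 / 2 - C * Real.log (Real.log w) / Real.log w ≤ δ w) ∧
    (∀ w v : ℕ, 1 ≤ w → Real.exp (C * w) ≤ v → δ w < δ v) ∧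
    (∀ w : ℕ, 1 ≤ w → ∃ u : ℕ, w ≤ u ∧ (u : ℝ) ≤ Real.exp (C * w) ∧ δ u < δ (u + 1)) := by
  obtain ⟨B, hB, hR⟩ := rate
  have hB0 : 0 < B := by linarith
  refine ⟨1000000 * B, by linarith, fun δ hδ => ?_⟩
  have r1 : ∀ (ε : ℝ) (w : ℕ), 0 < ε → ε ≤ 1 / 2 →
      Real.exp (1000000 * B * Real.log (2 / ε) / ε) ≤ w → 1 / 2 - ε ≤ δ w := by
    intro ε w hε hε2 hw
    refine hR δ hδ ε w hε hε2 ((Real.exp_le_exp.mpr ?_).trans hw)
    have h1 := log_two_div_ge hε hε2
    gcongr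
    linarith
  have r3 : ∀ w v : ℕ, 1 ≤ w → Real.exp (1000000 * B * w) ≤ v → δ w < δ v :=
    fun w v hw hv => growth hB hδ (hR δ hδ) w v hw hv
  refine ⟨r1, ?_, r3, ?_⟩
  · intro w hw
    obtain ⟨ℒ, hℒ⟩ : ∃ ℒ : ℝ, ℒ = Real.log w := ⟨_, rfl⟩
    have hw16 : (16 : ℝ) ≤ w := by exact_mod_cast hw
    have hw0 : (0 : ℝ) < w := by linarith
    have hℒ1 : 2.7 ≤ ℒ - 0.05 := by
      have h1 : Real.log 16 ≤ Real.log w := Real.log_le_log (by norm_num) hw16
      have h2 : Real.log 16 = 4 * Real.log 2 := by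
        have : (16 : ℝ) = 2 ^ 4 := by norm_num
        rw [this, Real.log_pow]
        norm_num
      have := Real.log_two_gt_d9
      rw [hℒ]
      linarith
    have hℒ0 : 0 < ℒ := by linarith
    rw [← hℒ]
    obtain ⟨lam, hlam⟩ : ∃ lam : ℝ, lam = Real.log ℒ := ⟨_, rfl⟩
    have hlam1 : 1 ≤ lam := by
      rw [hlam, Real.le_log_iff_exp_le hℒ0]
      have := Real.exp_one_lt_d9
      linarith
    have hlam0 : 0 < lam := by linarith
    rw [← hlam]
    obtain ⟨D, hD⟩ : ∃ D : ℝ, D = 1000000 * B := ⟨_, rfl⟩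
    rw [← hD]
    have hD2 : 2 ≤ D := by linarith
    have hD0 : 0 < D := by linarith
    have hDB : B ≤ D := by linarith
    obtain ⟨ε, hε⟩ : ∃ ε : ℝ, ε = D * lam / ℒ := ⟨_, rfl⟩
    rw [← hε]
    have hε0 : 0 < ε := by rw [hε]; positivity
    rcases le_or_gt ε (1 / 2) with hε2 | hε2
    · refine hR δ hδ ε w hε0 hε2 ?_
      rw [← Real.le_log_iff_exp_le hw0, ← hℒ]
      have h1 : Real.log (2 / ε) ≤ lam := by
        rw [hlam]
        refine Real.log_le_log (by positivity) ?_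
        rw [div_le_iff₀ hε0, hε, mul_div_assoc', le_div_iff₀ hℒ0]
        have h2 : 2 ≤ D * lam := by nlinarith
        nlinarith
      rw [div_le_iff₀ hε0]
      have h2 := log_two_div_ge hε0 hε2
      calc B * Real.log (2 / ε) ≤ D * lam := mul_le_mul hDB h1 (by linarith) hD0.le
        _ = ℒ * ε := by
            rw [hε]
            field_simp
    · have := delta_nonneg hδ w
      linarith
  · intro w hw
    by_contra hcon
    push Not at hcon
    obtain ⟨X, hX⟩ : ∃ X : ℝ, X = Real.exp (1000000 * B * w) := ⟨_, rfl⟩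
    rw [← hX] at hcon
    have hXw : (w : ℝ) ≤ X := by
      have hw1 : (1 : ℝ) ≤ w := by exact_mod_cast hw
      have h3 : (w : ℝ) ≤ 1000000 * B * w := by nlinarith
      rw [hX]
      have h4 := Real.add_one_le_exp (1000000 * B * (w : ℝ))
      linarith
    -- `δ` does not increase up to `⌊X⌋ + 1`
    have h1 : ∀ k : ℕ, ((w + k : ℕ) : ℝ) ≤ X + 1 → δ (w + k) ≤ δ w := by
      intro k
      induction k with
      | zero => intro _; exact le_rfl
      | succ k ih =>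
        intro hk
        have h2 : ((w + k : ℕ) : ℝ) ≤ X := by
          push_cast at hk ⊢
          linarith
        exact (hcon (w + k) (by omega) h2).trans (ih (by linarith))
    obtain ⟨v, hv⟩ : ∃ v : ℕ, v = ⌈X⌉₊ := ⟨_, rfl⟩
    have hv1 : X ≤ v := by rw [hv]; exact Nat.le_ceil _
    have hX0 : 0 ≤ X := by rw [hX]; positivity
    have hv2 : (v : ℝ) ≤ X + 1 := by rw [hv]; exact (Nat.ceil_lt_add_one hX0).le
    have hwv : w ≤ v := by
      have : (w : ℝ) ≤ v := hXw.trans hv1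
      exact_mod_cast this
    have h2 := r3 w v hw (by rw [← hX]; exact hv1)
    have h3 := h1 (v - w) (by rw [Nat.add_sub_cancel' hwv]; exact hv2)
    rw [Nat.add_sub_cancel' hwv] at h3
    linarith

end Pool.Agent.V5helper67.KS
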