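import Pool.Agent.V5helper67.KS.Lp
import Pool.Agent.TH161.LW.Info3

/-!
# The pigeonhole principle for random variables with `2 ^ J` values

If `c x`, `x ∈ S`, are random variables with values in `{0, …, 2 ^ J - 1}` and
`|P (c x < c y) - P (c y < c x)| ≥ δ` for all `x ≠ y` in `S`, then `|S| ≤ exp (30 J / δ)`.
-/

set_option autoImplicit false

open Finset

namespace Pool.Agent.V5helper67.KS

open Pool.Agent.TH161.LW

variable {Ω β : Type*} [Fintype Ω]

/-- the complex vector of a random variable -/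
noncomputable def ph (J : ℕ) (c : Ω → ℕ) (k : Ω × Fin J × Fin (2 ^ J)) : ℂ :=
  ⟨vec J c (k.1, k.2.1, k.2.2, false), vec J c (k.1, k.2.1, k.2.2, true)⟩

lemma ph_norm [Nonempty Ω] (J : ℕ) (c : Ω → ℕ) (hc : ∀ ω, c ω < 2 ^ J) :
    ∑ k, Complex.normSq (ph J c k) = J := by
  rw [← norm_vec J c hc, EuclideanSpace.norm_sq_eq]
  simp only [Idx, Fintype.sum_prod_type, Fintype.sum_bool, ph, Complex.normSq_mk,
    Real.norm_eq_abs, sq_abs]
  refine Finset.sum_congr rfl fun ω _ => Finset.sum_congr rfl fun j _ =>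
    Finset.sum_congr rfl fun R _ => by ring

lemma ph_im [Nonempty Ω] (J : ℕ) (c c' : Ω → ℕ) (hc : ∀ ω, c ω < 2 ^ J)
    (hc' : ∀ ω, c' ω < 2 ^ J) :
    (∑ k, ph J c k * (starRingEnd ℂ) (ph J c' k)).im =
      -((∑ ω, sgn (c ω) (c' ω)) / Fintype.card Ω) := by
  rw [← BB_vec J c c' hc hc', BB_apply, Complex.im_sum, ← Finset.sum_neg_distrib]
  simp only [Idx, Fintype.sum_prod_type, Fintype.sum_bool, ph, Complex.mul_im, Complex.conj_re,
    Complex.conj_im, sg, sib, Equiv.prodCongr_apply, Prod.map, Equiv.refl_apply,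
    Equiv.boolNot_apply, Bool.not_true, Bool.not_false]
  refine Finset.sum_congr rfl fun ω _ => Finset.sum_congr rfl fun j _ =>
    Finset.sum_congr rfl fun R _ => ?_
  simp
  ring

/-- the pigeonhole principle -/
theorem inf [Nonempty Ω] {J : ℕ} (hJ : 1 ≤ J) {c : β → Ω → ℕ} {δ : ℝ} (hδ : 0 < δ)
    {S : Finset β} (hc : ∀ x ∈ S, ∀ ω, c x ω < 2 ^ J)
    (hB : ∀ x ∈ S, ∀ y ∈ S, x ≠ y → δ * Fintype.card Ω ≤ |BT c x y|) :
    (S.card : ℝ) ≤ Real.exp (30 * J / δ) := by
  have hΩ : (0 : ℝ) < Fintype.card Ω := by exact_mod_cast Fintype.card_pos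
  have hJ' : (1 : ℝ) ≤ J := by exact_mod_cast hJ
  have hex : 1 ≤ Real.exp (30 * J / δ) := Real.one_le_exp (by positivity)
  by_cases h1 : S.card ≤ 1
  · have h2 : (S.card : ℝ) ≤ 1 := by exact_mod_cast h1
    linarith
  push Not at h1
  obtain ⟨x, hx, y, hy, hxy⟩ := Finset.one_lt_card.mp h1
  have hδ1 : δ ≤ 1 := by
    have h2 := hB x hx y hy hxy
    have h3 : |BT c x y| ≤ Fintype.card Ω := by
      unfold BT
      refine (Finset.abs_sum_le_sum_abs _ _).trans ?_
      calc ∑ ω, |sgn (c x ω) (c y ω)| ≤ ∑ ω : Ω, (1 : ℝ) := by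
            refine Finset.sum_le_sum fun ω _ => ?_
            unfold sgn
            split_ifs <;> norm_num
        _ = Fintype.card Ω := by simp
    have h4 : δ * Fintype.card Ω ≤ 1 * Fintype.card Ω := by linarith
    exact le_of_mul_le_mul_right h4 hΩ
  refine lp_log S (fun x => ph J (c x)) hδ (by linarith)
    (fun x hx => (ph_norm J (c x) (hc x hx)).le) (fun x hx y hy hxy => ?_)
  rw [ph_im J (c x) (c y) (hc x hx) (hc y hy), abs_neg, abs_div, abs_of_pos hΩ, le_div_iff₀ hΩ]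
  exact hB x hx y hy hxy

end Pool.Agent.V5helper67.KS
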