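import Mathlib

/-!
# A positive definite kernel bound for tournaments

If `φ x`, `x ∈ S`, are vectors of a complex Euclidean space of square norm at most `r` and
`n |Im ⟨φ x, φ y⟩| ≥ r` for all `x ≠ y` in `S`, then `log |S| ≤ 9 n`.
-/

set_option autoImplicit false

open Finset Filter Topology

namespace Pool.Agent.V5helper67.KS

/-! ### The trigonometric polynomial -/

/-- `∑ 2 sin (k α) cos (k t)`, `k < m`, `α = π / m` -/
noncomputable def hp (m : ℕ) (t : ℝ) : ℝ :=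
  ∑ k ∈ range m, 2 * Real.sin (k * (Real.pi / m)) * Real.cos (k * t)

lemma tele (α t : ℝ) (m : ℕ) :
    (Real.cos t - Real.cos α) * ∑ k ∈ range (m + 1), 2 * Real.sin (k * α) * Real.cos (k * t) =
      Real.sin (m * α) * Real.cos ((m + 1) * t) - Real.sin ((m + 1) * α) * Real.cos (m * t) +
        Real.sin α := by
  induction m with
  | zero => simp
  | succ m ih =>
    rw [Finset.sum_range_succ, mul_add, ih]
    push_cast
    have e1 : Real.cos ((m + 1 + 1) * t) = 2 * Real.cos t * Real.cos ((m + 1) * t) -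
        Real.cos (m * t) := by
      have h1 : ((m : ℝ) + 1 + 1) * t = (m + 1) * t + t := by ring
      have h2 : (m : ℝ) * t = (m + 1) * t - t := by ring
      rw [h1, h2, Real.cos_add, Real.cos_sub]
      ring
    have e2 : Real.sin ((m + 1 + 1) * α) = 2 * Real.cos α * Real.sin ((m + 1) * α) -
        Real.sin (m * α) := by
      have h1 : ((m : ℝ) + 1 + 1) * α = (m + 1) * α + α := by ring
      have h2 : (m : ℝ) * α = (m + 1) * α - α := by ring
      rw [h1, h2, Real.sin_add, Real.sin_sub]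
      ring
    rw [e1, e2]
    ring

lemma hp_eq {m : ℕ} (hm : 1 ≤ m) (t : ℝ) :
    (Real.cos t - Real.cos (Real.pi / m)) * hp m t =
      Real.sin (Real.pi / m) * (1 + Real.cos (m * t)) := by
  obtain ⟨k, rfl⟩ : ∃ k, m = k + 1 := ⟨m - 1, by omega⟩
  have hk : (0 : ℝ) < (k : ℝ) + 1 := by positivity
  unfold hp
  rw [tele]
  push_cast
  have h1 : ((k : ℝ) + 1) * (Real.pi / (k + 1)) = Real.pi := by field_simp
  have h2 : (k : ℝ) * (Real.pi / (k + 1)) = Real.pi - Real.pi / (k + 1) := by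
    field_simp
    ring
  rw [h1, h2, Real.sin_pi, Real.sin_pi_sub]
  ring

lemma sin_pos' {m : ℕ} (hm : 2 ≤ m) : 0 < Real.sin (Real.pi / m) := by
  have hm' : (2 : ℝ) ≤ m := by exact_mod_cast hm
  refine Real.sin_pos_of_pos_of_lt_pi (by positivity) ?_
  exact div_lt_self Real.pi_pos (by linarith)

/-- the normalised polynomial -/
noncomputable def hq (m : ℕ) (t : ℝ) : ℝ := hp m t / Real.sin (Real.pi / m)

lemma hq_zero_le {m : ℕ} (hm : 2 ≤ m) : hq m 0 ≤ (m : ℝ) ^ 2 := by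
  have hm' : (2 : ℝ) ≤ m := by exact_mod_cast hm
  have h0 := sin_pos' hm
  unfold hq
  rw [div_le_iff₀ h0]
  have h1 : 2 / (m : ℝ) ≤ Real.sin (Real.pi / m) := by
    have h2 := Real.mul_le_sin (x := Real.pi / m) (by positivity)
      (div_le_div_of_nonneg_left Real.pi_pos.le (by norm_num) hm')
    have h3 : 2 / Real.pi * (Real.pi / m) = 2 / m := by
      have := Real.pi_pos
      field_simp
    rwa [h3] at h2
  have h2 : hp m 0 ≤ 2 * m := by
    unfold hp
    calc ∑ k ∈ range m, 2 * Real.sin (k * (Real.pi / m)) * Real.cos (k * 0)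
        ≤ ∑ k ∈ range m, (2 : ℝ) := by
          refine Finset.sum_le_sum fun k _ => ?_
          rw [mul_zero, Real.cos_zero, mul_one]
          have := Real.sin_le_one (k * (Real.pi / m))
          linarith
      _ = 2 * m := by rw [Finset.sum_const, card_range, nsmul_eq_mul]; ring
  calc hp m 0 ≤ 2 * m := h2
    _ = (m : ℝ) ^ 2 * (2 / m) := by field_simp
    _ ≤ (m : ℝ) ^ 2 * Real.sin (Real.pi / m) := by gcongr

lemma hq_neg {m : ℕ} (hm : 2 ≤ m) {t : ℝ} (ht : Real.cos t < Real.cos (Real.pi / m)) :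
    hq m t ≤ -((1 + Real.cos (m * t)) / (1 - Real.cos t)) := by
  have h0 := sin_pos' hm
  have h1 := hp_eq (by omega : 1 ≤ m) t
  have h2 : 0 < Real.cos (Real.pi / m) - Real.cos t := by linarith
  have h3 : hq m t = -((1 + Real.cos (m * t)) / (Real.cos (Real.pi / m) - Real.cos t)) := by
    unfold hq
    rw [← neg_div, div_eq_div_iff h0.ne' h2.ne']
    linarith
  rw [h3]
  have h4 : 0 ≤ 1 + Real.cos (m * t) := by
    have := Real.neg_one_le_cos (m * t)
    linarith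
  have h5 := Real.cos_le_one (Real.pi / m)
  exact neg_le_neg (div_le_div_of_nonneg_left h4 h2 (by linarith))

/-- the sum of two polynomials is negative away from `0` -/
lemma hq_sum_neg {n : ℕ} (hn : 2 ≤ n) {t : ℝ} (ht1 : Real.pi / n < |t|) (ht2 : |t| ≤ Real.pi) :
    hq n t + hq (n + 1) t ≤ -(1 / 2) := by
  have hn' : (2 : ℝ) ≤ n := by exact_mod_cast hn
  have hpi := Real.pi_pos
  have hev : ∀ m : ℕ, hq m t = hq m |t| := by
    intro m
    unfold hq hp
    congr 1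
    refine Finset.sum_congr rfl fun k _ => ?_
    have h1 : (k : ℝ) * |t| = |k * t| := by
      rw [abs_mul, Nat.abs_cast]
    rw [h1, Real.cos_abs]
  rw [hev n, hev (n + 1)]
  obtain ⟨s, hs⟩ : ∃ s : ℝ, s = |t| := ⟨_, rfl⟩
  rw [← hs] at ht1 ht2 ⊢
  have h0 : 0 < Real.pi / n := by positivity
  have hs0 : 0 < s := by linarith
  have c1 : Real.cos s < Real.cos (Real.pi / n) :=
    Real.cos_lt_cos_of_nonneg_of_le_pi h0.le ht2 ht1
  have c2 : Real.cos s < Real.cos (Real.pi / ((n + 1 : ℕ) : ℝ)) := by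
    refine Real.cos_lt_cos_of_nonneg_of_le_pi (by positivity) ht2 (lt_of_le_of_lt ?_ ht1)
    refine div_le_div_of_nonneg_left hpi.le (by positivity) ?_
    push_cast
    linarith
  have b1 := hq_neg hn c1
  have b2 := hq_neg (by omega : 2 ≤ n + 1) c2
  have hc : 0 < 1 - Real.cos s := by
    have := Real.cos_le_one (Real.pi / n)
    linarith
  have key : 1 / 2 * (1 - Real.cos s) ≤
      (1 + Real.cos (n * s)) + (1 + Real.cos (((n + 1 : ℕ) : ℝ) * s)) := by
    have e1 : Real.cos s = 2 * Real.cos (s / 2) ^ 2 - 1 := by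
      rw [← Real.cos_two_mul]
      congr 1
      ring
    have e2 : Real.cos (n * s) + Real.cos (((n + 1 : ℕ) : ℝ) * s) =
        2 * Real.cos ((2 * n + 1) * s / 2) * Real.cos (s / 2) := by
      rw [Real.cos_add_cos]
      push_cast
      have h1 : ((n : ℝ) * s + (n + 1) * s) / 2 = (2 * n + 1) * s / 2 := by ring
      have h2 : ((n : ℝ) * s - (n + 1) * s) / 2 = -(s / 2) := by ring
      rw [h1, h2, Real.cos_neg]
    have h3 : 0 ≤ Real.cos (s / 2) :=
      Real.cos_nonneg_of_mem_Icc ⟨by linarith, by linarith⟩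
    have h4 := Real.cos_le_one (s / 2)
    have h5 := Real.neg_one_le_cos ((2 * n + 1) * s / 2)
    nlinarith
  have h6 : 1 / 2 ≤ (1 + Real.cos (n * s)) / (1 - Real.cos s) +
      (1 + Real.cos (((n + 1 : ℕ) : ℝ) * s)) / (1 - Real.cos s) := by
    rw [← add_div, le_div_iff₀ hc]
    exact key
  linarith

/-! ### Positive kernels -/

section pos

variable {ι κ : Type*} [Fintype κ]

lemma pos_pow (S : Finset ι) (v : ι → κ → ℂ) (n : ℕ) : ∀ a : ι → ℂ,
    0 ≤ (∑ x ∈ S, ∑ y ∈ S, a x * (starRingEnd ℂ) (a y) *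
      (∑ k, v x k * (starRingEnd ℂ) (v y k)) ^ n).re := by
  induction n with
  | zero =>
    intro a
    have h1 : ∑ x ∈ S, ∑ y ∈ S, a x * (starRingEnd ℂ) (a y) *
        (∑ k, v x k * (starRingEnd ℂ) (v y k)) ^ 0 =
        (∑ x ∈ S, a x) * (starRingEnd ℂ) (∑ x ∈ S, a x) := by
      rw [map_sum, Finset.sum_mul_sum]
      simp
    rw [h1, Complex.mul_conj]
    simp only [Complex.ofReal_re]
    exact Complex.normSq_nonneg _
  | succ n ih =>
    intro a
    have h1 : ∑ x ∈ S, ∑ y ∈ S, a x * (starRingEnd ℂ) (a y) *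
        (∑ k, v x k * (starRingEnd ℂ) (v y k)) ^ (n + 1) =
        ∑ k, ∑ x ∈ S, ∑ y ∈ S, (a x * v x k) * (starRingEnd ℂ) (a y * v y k) *
        (∑ k, v x k * (starRingEnd ℂ) (v y k)) ^ n := by
      rw [Finset.sum_comm (s := univ)]
      refine Finset.sum_congr rfl fun x _ => ?_
      rw [Finset.sum_comm (s := univ)]
      refine Finset.sum_congr rfl fun y _ => ?_
      rw [pow_succ]
      generalize (∑ k, v x k * (starRingEnd ℂ) (v y k)) ^ n = L
      rw [Finset.mul_sum, Finset.mul_sum]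
      refine Finset.sum_congr rfl fun k _ => ?_
      rw [map_mul]
      ring
    rw [h1, Complex.re_sum]
    exact Finset.sum_nonneg fun k _ => ih fun x => a x * v x k

lemma pos_exp (S : Finset ι) (v : ι → κ → ℂ) :
    0 ≤ (∑ x ∈ S, ∑ y ∈ S, Complex.exp (∑ k, v x k * (starRingEnd ℂ) (v y k))).re := by
  have h1 : Tendsto (fun n : ℕ => (∑ x ∈ S, ∑ y ∈ S,
      (1 + (∑ k, v x k * (starRingEnd ℂ) (v y k)) / n) ^ n).re) atTop
      (𝓝 (∑ x ∈ S, ∑ y ∈ S, Complex.exp (∑ k, v x k * (starRingEnd ℂ) (v y k))).re) := by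
    refine (Complex.continuous_re.tendsto _).comp ?_
    refine tendsto_finsetSum _ fun x _ => tendsto_finsetSum _ fun y _ => ?_
    exact Complex.tendsto_one_add_div_pow_exp _
  refine ge_of_tendsto h1 ?_
  filter_upwards [eventually_gt_atTop 0] with n hn
  have hn' : (0 : ℝ) < n := by exact_mod_cast hn
  have hs : ((Real.sqrt n : ℝ) : ℂ) * ((Real.sqrt n : ℝ) : ℂ) = n := by
    rw [← Complex.ofReal_mul, Real.mul_self_sqrt hn'.le]
    simp
  have hs0 : ((Real.sqrt n : ℝ) : ℂ) ≠ 0 := by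
    have := Real.sqrt_pos.mpr hn'
    exact_mod_cast this.ne'
  have h2 := pos_pow S (κ := Option κ)
    (fun x k => k.elim 1 fun k => v x k / ((Real.sqrt n : ℝ) : ℂ)) n (fun _ => 1)
  refine h2.trans_eq ?_
  congr 1
  refine Finset.sum_congr rfl fun x _ => Finset.sum_congr rfl fun y _ => ?_
  rw [Fintype.sum_option]
  simp only [Option.elim, map_one, mul_one, one_mul]
  congr 2
  rw [Finset.sum_div]
  refine Finset.sum_congr rfl fun k _ => ?_
  rw [map_div₀, Complex.conj_ofReal, div_mul_div_comm, hs]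

/-- the kernels `exp (lam A) cos (mu B)` with `|mu| ≤ lam` are positive -/
lemma pos_exp_cos (S : Finset ι) (φ : ι → κ → ℂ) {lam mu : ℝ} (h0 : 0 ≤ mu) (h1 : mu ≤ lam) :
    0 ≤ ∑ x ∈ S, ∑ y ∈ S, Real.exp (lam * (∑ k, φ x k * (starRingEnd ℂ) (φ y k)).re) *
      Real.cos (mu * (∑ k, φ x k * (starRingEnd ℂ) (φ y k)).im) := by
  obtain ⟨p, hp⟩ : ∃ p : ℝ, p = Real.sqrt ((lam + mu) / 2) := ⟨_, rfl⟩
  obtain ⟨q, hq⟩ : ∃ q : ℝ, q = Real.sqrt ((lam - mu) / 2) := ⟨_, rfl⟩
  have hpp : p * p = (lam + mu) / 2 := by rw [hp]; exact Real.mul_self_sqrt (by linarith)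
  have hqq : q * q = (lam - mu) / 2 := by rw [hq]; exact Real.mul_self_sqrt (by linarith)
  have h2 := pos_exp S (κ := κ ⊕ κ) (fun x k => k.elim (fun k => (p : ℂ) * φ x k)
    (fun k => (q : ℂ) * (starRingEnd ℂ) (φ x k)))
  refine h2.trans_eq ?_
  rw [Complex.re_sum]
  refine Finset.sum_congr rfl fun x _ => ?_
  rw [Complex.re_sum]
  refine Finset.sum_congr rfl fun y _ => ?_
  have h3 : ∑ k : κ ⊕ κ, (k.elim (fun k => (p : ℂ) * φ x k)
      (fun k => (q : ℂ) * (starRingEnd ℂ) (φ x k))) *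
      (starRingEnd ℂ) (k.elim (fun k => (p : ℂ) * φ y k)
      (fun k => (q : ℂ) * (starRingEnd ℂ) (φ y k))) =
      ((p * p : ℝ) : ℂ) * (∑ k, φ x k * (starRingEnd ℂ) (φ y k)) +
      ((q * q : ℝ) : ℂ) * (starRingEnd ℂ) (∑ k, φ x k * (starRingEnd ℂ) (φ y k)) := by
    rw [Fintype.sum_sum_type, map_sum, Finset.mul_sum, Finset.mul_sum]
    simp only [Sum.elim_inl, Sum.elim_inr, map_mul, Complex.conj_ofReal, Complex.conj_conj]
    push_cast
    congr 1
    · refine Finset.sum_congr rfl fun k _ => by ring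
    · refine Finset.sum_congr rfl fun k _ => by ring
  rw [h3]
  generalize (∑ k, φ x k * (starRingEnd ℂ) (φ y k)) = H
  rw [Complex.exp_re, hpp, hqq]
  simp only [Complex.add_re, Complex.mul_re, Complex.ofReal_re, Complex.ofReal_im, Complex.conj_re,
    Complex.conj_im, Complex.add_im, Complex.mul_im, zero_mul, sub_zero, add_zero]
  congr 2 <;> ring

lemma norm_le (S : Finset ι) (φ : ι → κ → ℂ) {r : ℝ}
    (hnorm : ∀ x ∈ S, ∑ k, Complex.normSq (φ x k) ≤ r) {x y : ι} (hx : x ∈ S) (hy : y ∈ S) :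
    ‖∑ k, φ x k * (starRingEnd ℂ) (φ y k)‖ ≤ r := by
  refine (norm_sum_le _ _).trans ?_
  have h1 : ∑ k, ‖φ x k * (starRingEnd ℂ) (φ y k)‖ ≤
      ∑ k, (Complex.normSq (φ x k) + Complex.normSq (φ y k)) / 2 := by
    refine Finset.sum_le_sum fun k _ => ?_
    rw [norm_mul, RCLike.norm_conj, Complex.normSq_eq_norm_sq, Complex.normSq_eq_norm_sq]
    nlinarith [sq_nonneg (‖φ x k‖ - ‖φ y k‖)]
  refine h1.trans ?_
  rw [← Finset.sum_div, Finset.sum_add_distrib]
  have h2 := hnorm x hx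
  have h3 := hnorm y hy
  linarith

lemma hq_pos (S : Finset ι) (φ : ι → κ → ℂ) {lam c : ℝ} {m : ℕ} (hm : 2 ≤ m) (hc : 0 ≤ c)
    (hlam : (m - 1) * c ≤ lam) :
    0 ≤ ∑ x ∈ S, ∑ y ∈ S, Real.exp (lam * (∑ k, φ x k * (starRingEnd ℂ) (φ y k)).re) *
      hq m (c * (∑ k, φ x k * (starRingEnd ℂ) (φ y k)).im) := by
  have h0 := sin_pos' hm
  have hm' : (2 : ℝ) ≤ m := by exact_mod_cast hm
  have h1 : ∑ x ∈ S, ∑ y ∈ S, Real.exp (lam * (∑ k, φ x k * (starRingEnd ℂ) (φ y k)).re) *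
      hq m (c * (∑ k, φ x k * (starRingEnd ℂ) (φ y k)).im) =
      ∑ j ∈ range m, 2 * Real.sin (j * (Real.pi / m)) / Real.sin (Real.pi / m) *
      ∑ x ∈ S, ∑ y ∈ S, Real.exp (lam * (∑ k, φ x k * (starRingEnd ℂ) (φ y k)).re) *
      Real.cos ((j * c) * (∑ k, φ x k * (starRingEnd ℂ) (φ y k)).im) := by
    simp_rw [Finset.mul_sum]
    rw [Finset.sum_comm (s := range m)]
    refine Finset.sum_congr rfl fun x _ => ?_
    rw [Finset.sum_comm (s := range m)]
    refine Finset.sum_congr rfl fun y _ => ?_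
    unfold hq hp
    rw [Finset.sum_div, Finset.mul_sum]
    refine Finset.sum_congr rfl fun j _ => ?_
    rw [← mul_assoc (j : ℝ) c]
    ring
  rw [h1]
  refine Finset.sum_nonneg fun j hj => mul_nonneg ?_ ?_
  · have hj' : (j : ℝ) ≤ m := by exact_mod_cast (Finset.mem_range.mp hj).le
    have h2 : 0 ≤ Real.sin (j * (Real.pi / m)) := by
      have hpi := Real.pi_pos
      refine Real.sin_nonneg_of_nonneg_of_le_pi (by positivity) ?_
      rw [mul_div_assoc', div_le_iff₀ (by linarith)]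
      nlinarith
    positivity
  · refine pos_exp_cos S φ (by positivity) ?_
    have hj' : (j : ℝ) ≤ m - 1 := by
      have h3 : j + 1 ≤ m := Finset.mem_range.mp hj
      have h4 : (j : ℝ) + 1 ≤ m := by exact_mod_cast h3
      linarith
    exact (mul_le_mul_of_nonneg_right hj' hc).trans hlam

/-- the bound -/
theorem lp_bound (S : Finset ι) (φ : ι → κ → ℂ) {r : ℝ} (hr : 0 < r) {n : ℕ} (hn : 2 ≤ n)
    (hnorm : ∀ x ∈ S, ∑ k, Complex.normSq (φ x k) ≤ r)
    (him : ∀ x ∈ S, ∀ y ∈ S, x ≠ y → r < n * |(∑ k, φ x k * (starRingEnd ℂ) (φ y k)).im|) :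
    (S.card : ℝ) ≤ 1 + 2 * ((n : ℝ) ^ 2 + (n + 1) ^ 2) * Real.exp (2 * Real.pi * n) := by
  classical
  rcases S.eq_empty_or_nonempty with hS | hS
  · rw [hS]
    simp only [card_empty, Nat.cast_zero]
    positivity
  have hN : (1 : ℝ) ≤ S.card := by exact_mod_cast hS.card_pos
  have hn' : (2 : ℝ) ≤ n := by exact_mod_cast hn
  have hpi := Real.pi_pos
  obtain ⟨H, hH⟩ : ∃ H : ι → ι → ℂ, H = fun x y => ∑ k, φ x k * (starRingEnd ℂ) (φ y k) :=
    ⟨_, rfl⟩
  have hHe : ∀ x y, ∑ k, φ x k * (starRingEnd ℂ) (φ y k) = H x y := fun x y => by rw [hH]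
  obtain ⟨c, hc⟩ : ∃ c : ℝ, c = Real.pi / r := ⟨_, rfl⟩
  have hc0 : 0 < c := by rw [hc]; positivity
  have hcr : c * r = Real.pi := by rw [hc]; field_simp
  obtain ⟨lam, hlam⟩ : ∃ lam : ℝ, lam = n * c := ⟨_, rfl⟩
  have hlam0 : 0 < lam := by rw [hlam]; positivity
  have hlr : lam * r = Real.pi * n := by rw [hlam, mul_assoc, hcr]; ring
  have p1 := hq_pos S φ (lam := lam) (c := c) hn hc0.le (by rw [hlam]; nlinarith)
  have p2 := hq_pos S φ (lam := lam) (c := c) (m := n + 1) (by omega) hc0.le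
    (by rw [hlam]; push_cast; nlinarith)
  simp only [hHe] at p1 p2 him
  -- bounds on the kernel
  have hab : ∀ x ∈ S, ∀ y ∈ S, |(H x y).re| ≤ r ∧ |(H x y).im| ≤ r := by
    intro x hx y hy
    have h1 := norm_le S φ hnorm hx hy
    rw [hHe] at h1
    exact ⟨(Complex.abs_re_le_norm _).trans h1, (Complex.abs_im_le_norm _).trans h1⟩
  have hdiag : ∀ x, (H x x).im = 0 := by
    intro x
    rw [hH]
    simp only
    rw [Complex.im_sum]
    refine Finset.sum_eq_zero fun k _ => ?_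
    rw [Complex.mul_conj]
    simp
  obtain ⟨F, hF⟩ : ∃ F : ι → ι → ℝ, F = fun x y => Real.exp (lam * (H x y).re) *
    (hq n (c * (H x y).im) + hq (n + 1) (c * (H x y).im)) := ⟨_, rfl⟩
  have hsum : 0 ≤ ∑ x ∈ S, ∑ y ∈ S, F x y := by
    have h1 : ∑ x ∈ S, ∑ y ∈ S, F x y =
        (∑ x ∈ S, ∑ y ∈ S, Real.exp (lam * (H x y).re) * hq n (c * (H x y).im)) +
        ∑ x ∈ S, ∑ y ∈ S, Real.exp (lam * (H x y).re) * hq (n + 1) (c * (H x y).im) := by
      rw [hF, ← Finset.sum_add_distrib]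
      refine Finset.sum_congr rfl fun x _ => ?_
      rw [← Finset.sum_add_distrib]
      refine Finset.sum_congr rfl fun y _ => ?_
      ring
    rw [h1]
    exact add_nonneg p1 p2
  have hg0 : hq n 0 + hq (n + 1) 0 ≤ (n : ℝ) ^ 2 + (n + 1) ^ 2 := by
    have h1 := hq_zero_le hn
    have h2 := hq_zero_le (show 2 ≤ n + 1 by omega)
    push_cast at h2
    linarith
  have hd : ∀ x ∈ S, F x x ≤ Real.exp (Real.pi * n) * ((n : ℝ) ^ 2 + (n + 1) ^ 2) := by
    intro x hx
    rw [hF]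
    simp only
    rw [hdiag x, mul_zero]
    have h1 := abs_le.mp (hab x hx x hx).1
    have h2 : Real.exp (lam * (H x x).re) ≤ Real.exp (Real.pi * n) := by
      refine Real.exp_le_exp.mpr ?_
      rw [← hlr]
      exact mul_le_mul_of_nonneg_left h1.2 hlam0.le
    calc Real.exp (lam * (H x x).re) * (hq n 0 + hq (n + 1) 0)
        ≤ Real.exp (lam * (H x x).re) * ((n : ℝ) ^ 2 + (n + 1) ^ 2) :=
          mul_le_mul_of_nonneg_left hg0 (Real.exp_pos _).le
      _ ≤ _ := mul_le_mul_of_nonneg_right h2 (by positivity)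
  have ho : ∀ x ∈ S, ∀ y ∈ S.erase x, F x y ≤ -(1 / 2 * Real.exp (-(Real.pi * n))) := by
    intro x hx y hy
    have hy' := Finset.mem_of_mem_erase hy
    have h1 := abs_le.mp (hab x hx y hy').1
    have h2 : Real.exp (-(Real.pi * n)) ≤ Real.exp (lam * (H x y).re) := by
      refine Real.exp_le_exp.mpr ?_
      rw [← hlr, ← mul_neg]
      exact mul_le_mul_of_nonneg_left h1.1 hlam0.le
    have h3 : hq n (c * (H x y).im) + hq (n + 1) (c * (H x y).im) ≤ -(1 / 2) := by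
      refine hq_sum_neg hn ?_ ?_
      · rw [abs_mul, abs_of_pos hc0, div_lt_iff₀ (by linarith), ← hcr]
        have h4 := him x hx y hy' (Finset.ne_of_mem_erase hy).symm
        calc c * r < c * (n * |(H x y).im|) := mul_lt_mul_of_pos_left h4 hc0
          _ = c * |(H x y).im| * n := by ring
      · rw [abs_mul, abs_of_pos hc0, ← hcr]
        exact mul_le_mul_of_nonneg_left (hab x hx y hy').2 hc0.le
    rw [hF]
    simp only
    have h4 := Real.exp_pos (-(Real.pi * n))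
    nlinarith
  have htot : ∑ x ∈ S, ∑ y ∈ S, F x y ≤ ∑ x ∈ S,
      (Real.exp (Real.pi * n) * ((n : ℝ) ^ 2 + (n + 1) ^ 2) -
        (S.card - 1) * (1 / 2 * Real.exp (-(Real.pi * n)))) := by
    refine Finset.sum_le_sum fun x hx => ?_
    rw [← Finset.add_sum_erase S _ hx]
    have h1 := Finset.sum_le_sum (ho x hx)
    rw [Finset.sum_const, Finset.card_erase_of_mem hx, nsmul_eq_mul,
      Nat.cast_sub hS.card_pos] at h1
    have h2 := hd x hx
    push_cast at h1
    linarith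
  rw [Finset.sum_const, nsmul_eq_mul] at htot
  have h1 : 0 ≤ Real.exp (Real.pi * n) * ((n : ℝ) ^ 2 + (n + 1) ^ 2) -
        (S.card - 1) * (1 / 2 * Real.exp (-(Real.pi * n))) := by
    by_contra hcon
    push Not at hcon
    have h2 : (S.card : ℝ) * (Real.exp (Real.pi * n) * ((n : ℝ) ^ 2 + (n + 1) ^ 2) -
        (S.card - 1) * (1 / 2 * Real.exp (-(Real.pi * n)))) < 0 :=
      mul_neg_of_pos_of_neg (by linarith) hcon
    linarith
  have h2 : Real.exp (-(Real.pi * n)) * Real.exp (Real.pi * n) = 1 := by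
    rw [← Real.exp_add]
    simp
  have h3 : Real.exp (2 * Real.pi * n) = Real.exp (Real.pi * n) * Real.exp (Real.pi * n) := by
    rw [← Real.exp_add]
    congr 1
    ring
  have h4 : ((S.card : ℝ) - 1) * (Real.exp (-(Real.pi * n)) * Real.exp (Real.pi * n)) ≤
      2 * ((n : ℝ) ^ 2 + (n + 1) ^ 2) * (Real.exp (Real.pi * n) * Real.exp (Real.pi * n)) := by
    have h5 := mul_nonneg h1 (Real.exp_pos (Real.pi * n)).le
    nlinarith
  rw [h2] at h4
  rw [h3]
  linarith

lemma final_num {n : ℝ} (hn : 2 ≤ n) :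
    1 + 2 * (n ^ 2 + (n + 1) ^ 2) * Real.exp (2 * Real.pi * n) ≤ Real.exp (10 * n) := by
  have h1 : Real.pi < 3.15 := Real.pi_lt_d2
  have h2 : 0 ≤ 2 * Real.pi * n := by positivity
  have h3 : 1 ≤ Real.exp (2 * Real.pi * n) := Real.one_le_exp h2
  have h4 : 1 + 2 * (n ^ 2 + (n + 1) ^ 2) ≤ Real.exp (3.7 * n) := by
    have h5 : (1 + 0.9 * n + (0.9 * n) ^ 2 / 2) ≤ Real.exp (0.9 * n) := by
      have := Real.quadratic_le_exp_of_nonneg (show 0 ≤ 0.9 * n by positivity)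
      linarith
    have h6 : Real.exp (3.7 * n) ≥ (1 + 0.9 * n + (0.9 * n) ^ 2 / 2) ^ 4 := by
      calc Real.exp (3.7 * n) ≥ Real.exp (4 * (0.9 * n)) := Real.exp_le_exp.mpr (by linarith)
        _ = Real.exp (0.9 * n) ^ 4 := by
            rw [← Real.exp_nat_mul]
            norm_num
        _ ≥ _ := pow_le_pow_left₀ (by positivity) h5 4
    refine le_trans ?_ h6
    nlinarith [pow_le_pow_left₀ (by norm_num) hn 2, pow_le_pow_left₀ (by norm_num) hn 3,
      pow_le_pow_left₀ (by norm_num) hn 4, pow_nonneg (show 0 ≤ n by linarith) 5,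
      pow_nonneg (show 0 ≤ n by linarith) 6, pow_nonneg (show 0 ≤ n by linarith) 7,
      pow_nonneg (show 0 ≤ n by linarith) 8]
  calc 1 + 2 * (n ^ 2 + (n + 1) ^ 2) * Real.exp (2 * Real.pi * n)
      ≤ Real.exp (2 * Real.pi * n) + 2 * (n ^ 2 + (n + 1) ^ 2) * Real.exp (2 * Real.pi * n) := by
        linarith
    _ = (1 + 2 * (n ^ 2 + (n + 1) ^ 2)) * Real.exp (2 * Real.pi * n) := by ring
    _ ≤ Real.exp (3.7 * n) * Real.exp (2 * Real.pi * n) :=
        mul_le_mul_of_nonneg_right h4 (Real.exp_pos _).le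
    _ = Real.exp (3.7 * n + 2 * Real.pi * n) := (Real.exp_add _ _).symm
    _ ≤ Real.exp (10 * n) := Real.exp_le_exp.mpr (by nlinarith)

/-- the bound, in logarithmic form -/
theorem lp_log (S : Finset ι) (φ : ι → κ → ℂ) {r δ : ℝ} (hδ : 0 < δ) (hδr : δ ≤ r)
    (hnorm : ∀ x ∈ S, ∑ k, Complex.normSq (φ x k) ≤ r)
    (him : ∀ x ∈ S, ∀ y ∈ S, x ≠ y → δ ≤ |(∑ k, φ x k * (starRingEnd ℂ) (φ y k)).im|) :
    (S.card : ℝ) ≤ Real.exp (30 * r / δ) := by
  have hr : 0 < r := by linarith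
  obtain ⟨n, hn⟩ : ∃ n : ℕ, n = ⌈r / δ⌉₊ + 1 := ⟨_, rfl⟩
  have h1 : 1 ≤ r / δ := by rwa [le_div_iff₀ hδ, one_mul]
  have h2 : r / δ ≤ (⌈r / δ⌉₊ : ℝ) := Nat.le_ceil _
  have h3 : (⌈r / δ⌉₊ : ℝ) < r / δ + 1 := Nat.ceil_lt_add_one (by linarith)
  have h4 : 1 ≤ ⌈r / δ⌉₊ := by
    have : (1 : ℝ) ≤ ⌈r / δ⌉₊ := h1.trans h2
    exact_mod_cast this
  have hn2 : 2 ≤ n := by omega
  have hnr : (n : ℝ) = ⌈r / δ⌉₊ + 1 := by rw [hn]; push_cast; ring
  have h5 := lp_bound S φ hr hn2 hnorm (fun x hx y hy hxy => by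
    have h6 := him x hx y hy hxy
    have h7 : r < n * δ := by
      rw [hnr, ← div_lt_iff₀ hδ]
      linarith
    refine h7.trans_le ?_
    exact mul_le_mul_of_nonneg_left h6 (by positivity))
  refine h5.trans ((final_num (by exact_mod_cast hn2)).trans (Real.exp_le_exp.mpr ?_))
  have h6 : 30 * r / δ = 30 * (r / δ) := by ring
  rw [hnr, h6]
  linarith

end pos

end Pool.Agent.V5helper67.KS
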